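import Mathlib

/-!
Probabilistic cellular automata: basic deterministic facts.
-/

namespace Pool.Agent.H96.CA

/-- The lattice `ℤ^d`. -/
abbrev Zd (d : ℕ) := Fin d → ℤ

/-- The data of a PCA with state space `S` and noise alphabet `A` on `ℤ^d`. -/
structure PCA (d : ℕ) (S A : Type) where
  /-- the neighbourhood for the states -/
  F : Finset (Zd d)
  /-- the neighbourhood for the noise -/
  F' : Finset (Zd d)
  /-- the update map -/
  f : (F → S) → (F' → A) → S

variable {d : ℕ} {S A : Type}

/-- `ω^{ξ,i₀}_{·,i₀+n}` : the state at time `i₀ + n` of the evolution started from `ξ` at time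
`i₀`, driven by the noise `W`. -/
def PCA.evol (P : PCA d S A) (W : Zd d × ℤ → A) (ξ : Zd d → S) (i₀ : ℤ) : ℕ → Zd d → S
  | 0 => ξ
  | n + 1 => fun v => P.f (fun u => P.evol W ξ i₀ n (v + u)) (fun u => W (v + u, i₀ + n))

/-- Sup-distance at most `n`. -/
def Near (n : ℕ) (v w : Zd d) : Prop := ∀ i, |v i - w i| ≤ n

theorem Near.refl (n : ℕ) (v : Zd d) : Near n v v := fun i => by simp

theorem Near.symm {n : ℕ} {v w : Zd d} (h : Near n v w) : Near n w v := fun i => by
  rw [abs_sub_comm]; exact h i

theorem Near.trans {m n : ℕ} {u v w : Zd d} (h : Near m u v) (h' : Near n v w) :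
    Near (m + n) u w := fun i => by
  have h1 := h i
  have h2 := h' i
  rw [abs_le] at *
  push_cast
  constructor <;> linarith [h1.1, h1.2, h2.1, h2.2]

theorem Near.mono {m n : ℕ} {v w : Zd d} (h : Near m v w) (hmn : m ≤ n) : Near n v w := fun i =>
  (h i).trans (by exact_mod_cast hmn)

theorem near_add_left {n : ℕ} {v w x : Zd d} : Near n (x + v) (x + w) ↔ Near n v w := by
  constructor <;> intro h i <;> have := h i <;> simpa using this

theorem near_add_right {n : ℕ} {v w x : Zd d} : Near n (v + x) (w + x) ↔ Near n v w := by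
  constructor <;> intro h i <;> have := h i <;> simpa using this

/-- State at depth `m` of the backward-indexed evolution started at depth `m + n` from `ξ`,
with noise `w y m` used in the step from depth `m + 1` to depth `m`. -/
def PCA.bev (P : PCA d S A) (w : Zd d → ℕ → A) (ξ : Zd d → S) : ℕ → ℕ → Zd d → S
  | 0, _ => ξ
  | n + 1, m => fun v => P.f (fun u => P.bev w ξ n (m + 1) (v + u)) (fun u => w (v + u) m)

theorem PCA.bev_zero (P : PCA d S A) (w : Zd d → ℕ → A) (ξ : Zd d → S) (m : ℕ) :
    P.bev w ξ 0 m = ξ := rfl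

theorem PCA.bev_succ (P : PCA d S A) (w : Zd d → ℕ → A) (ξ : Zd d → S) (n m : ℕ) (v : Zd d) :
    P.bev w ξ (n + 1) m v =
      P.f (fun u => P.bev w ξ n (m + 1) (v + u)) (fun u => w (v + u) m) := rfl

theorem PCA.bev_add (P : PCA d S A) (w : Zd d → ℕ → A) (ξ : Zd d → S) (a b m : ℕ) :
    P.bev w ξ (a + b) m = P.bev w (P.bev w ξ b (m + a)) a m := by
  induction a generalizing m with
  | zero => simp [PCA.bev_zero]
  | succ a ih =>
    have h1 : a + 1 + b = (a + b) + 1 := by ring
    rw [h1]
    funext v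
    rw [PCA.bev_succ, PCA.bev_succ, ih (m + 1)]
    have h2 : m + 1 + a = m + (a + 1) := by ring
    rw [h2]

/-- The interaction range is at most `R`. -/
def PCA.RangeLE (P : PCA d S A) (R : ℕ) : Prop :=
  (∀ u ∈ P.F, Near R 0 u) ∧ (∀ u ∈ P.F', Near R 0 u)

theorem PCA.exists_range (P : PCA d S A) : ∃ R, P.RangeLE R := by
  classical
  refine ⟨∑ u ∈ P.F ∪ P.F', ∑ i, (u i).natAbs, ?_, ?_⟩
  · intro u hu i
    have h1 : (u i).natAbs ≤ ∑ i, (u i).natAbs :=
      Finset.single_le_sum (f := fun i => (u i).natAbs) (fun _ _ => Nat.zero_le _)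
        (Finset.mem_univ i)
    have h2 : ∑ i, (u i).natAbs ≤ ∑ u ∈ P.F ∪ P.F', ∑ i, (u i).natAbs :=
      Finset.single_le_sum (f := fun u : Zd d => ∑ i, (u i).natAbs) (fun _ _ => Nat.zero_le _)
        (Finset.mem_union_left _ hu)
    have h3 := h1.trans h2
    simp only [Pi.zero_apply, zero_sub, abs_neg]
    calc |u i| = ((u i).natAbs : ℤ) := (Int.natCast_natAbs _).symm
      _ ≤ _ := by exact_mod_cast h3
  · intro u hu i
    have h1 : (u i).natAbs ≤ ∑ i, (u i).natAbs :=
      Finset.single_le_sum (f := fun i => (u i).natAbs) (fun _ _ => Nat.zero_le _)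
        (Finset.mem_univ i)
    have h2 : ∑ i, (u i).natAbs ≤ ∑ u ∈ P.F ∪ P.F', ∑ i, (u i).natAbs :=
      Finset.single_le_sum (f := fun u : Zd d => ∑ i, (u i).natAbs) (fun _ _ => Nat.zero_le _)
        (Finset.mem_union_right _ hu)
    have h3 := h1.trans h2
    simp only [Pi.zero_apply, zero_sub, abs_neg]
    calc |u i| = ((u i).natAbs : ℤ) := (Int.natCast_natAbs _).symm
      _ ≤ _ := by exact_mod_cast h3

/-- Locality of the backward evolution. -/
theorem PCA.bev_local {P : PCA d S A} {R : ℕ} (hR : P.RangeLE R) {w w' : Zd d → ℕ → A}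
    {ξ ξ' : Zd d → S} (n : ℕ) : ∀ (m : ℕ) (y : Zd d),
    (∀ y' m', Near (R * n) y y' → m ≤ m' → m' < m + n → w y' m' = w' y' m') →
    (∀ y', Near (R * n) y y' → ξ y' = ξ' y') →
    P.bev w ξ n m y = P.bev w' ξ' n m y := by
  induction n with
  | zero =>
    intro m y _ h
    exact h y (Near.refl _ _)
  | succ n ih =>
    intro m y hw hξ
    rw [PCA.bev_succ, PCA.bev_succ]
    congr 1
    · funext u
      have hu : Near R y (y + u) := by
        have := (near_add_left (x := y)).2 (hR.1 u.1 u.2)
        simpa using this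
      refine ih (m + 1) (y + u) ?_ ?_
      · intro y' m' h1 h2 h3
        refine hw y' m' ((hu.trans h1).mono (by ring_nf; exact le_refl _)) (by omega) (by omega)
      · intro y' h1
        exact hξ y' ((hu.trans h1).mono (by ring_nf; exact le_refl _))
    · funext u
      have hu : Near R y (y + u) := by
        have := (near_add_left (x := y)).2 (hR.2 u.1 u.2)
        simpa using this
      refine hw (y + u) m (hu.mono ?_) le_rfl (by omega)
      nlinarith

/-- Translation covariance of the backward evolution. -/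
theorem PCA.bev_translate (P : PCA d S A) (w : Zd d → ℕ → A) (ξ : Zd d → S) (x : Zd d) (k : ℕ)
    (n : ℕ) : ∀ (m : ℕ) (y : Zd d),
    P.bev (fun z t => w (x + z) (k + t)) (fun z => ξ (x + z)) n m y =
      P.bev w ξ n (k + m) (x + y) := by
  induction n with
  | zero => intro m y; rfl
  | succ n ih =>
    intro m y
    rw [PCA.bev_succ, PCA.bev_succ]
    congr 1
    · funext u
      rw [ih (m + 1) (y + u)]
      congr 1
      rw [add_assoc]
    · funext u
      rw [add_assoc]

theorem PCA.evol_eq_bev (P : PCA d S A) (W : Zd d × ℤ → A) (ξ : Zd d → S) (i₀ : ℤ) (n : ℕ) :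
    ∀ m : ℕ, P.evol W ξ i₀ n = P.bev (fun y t => W (y, i₀ + n + m - 1 - t)) ξ n m := by
  induction n with
  | zero => intro m; rfl
  | succ n ih =>
    intro m
    funext v
    rw [PCA.bev_succ]
    show P.f _ _ = _
    congr 1
    · funext u
      rw [ih (m + 1)]
      congr 1
      funext y t
      congr 2
      push_cast
      ring
    · funext u
      congr 2
      push_cast
      ring

end Pool.Agent.H96.CA
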