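import Mathlib

/-!
Definitions for MP_fe4781_pr: probabilistic cellular automata, uniform ergodicity, finitary
codings by finite-valued i.i.d. processes.
-/

namespace Pool.Agent.H96.PCAStmt

open MeasureTheory Filter Topology

/-- The lattice `ℤ^d`. -/
abbrev Zd (d : ℕ) := Fin d → ℤ

/-- The `ℓ¹` norm. -/
def nrm {d : ℕ} (v : Zd d) : ℕ := ∑ i, (v i).natAbs

/-- The data of a PCA with state space `S` and noise alphabet `A` on `ℤ^d` (the law on `A` is
given separately). -/
structure PCA (d : ℕ) (S A : Type) where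
  /-- the neighbourhood for the states -/
  F : Finset (Zd d)
  /-- the neighbourhood for the noise -/
  F' : Finset (Zd d)
  /-- the update map -/
  f : (F → S) → (F' → A) → S

variable {d : ℕ} {S A : Type}

/-- `P.evol W ξ i₀ n v` is `ω^{ξ,i₀}_{v,i₀+n}` : the state at `v` at time `i₀ + n` of the evolution
started from `ξ` at time `i₀`, driven by the noise `W`. -/
def PCA.evol (P : PCA d S A) (W : Zd d × ℤ → A) (ξ : Zd d → S) (i₀ : ℤ) : ℕ → Zd d → S
  | 0 => ξ
  | n + 1 => fun v => P.f (fun u => P.evol W ξ i₀ n (v + u)) (fun u => W (v + u, i₀ + n))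

/-- The law of the i.i.d. noise with one-coordinate law `p`. -/
noncomputable def noise (d : ℕ) [MeasurableSpace A] (p : Measure A) : Measure (Zd d × ℤ → A) :=
  Measure.infinitePi (fun _ => p)

/-- Ergodicity with limiting distribution `μ`: for every `ξ` the law of the configuration at time
`n`, started from `ξ` at time `0`, converges weakly to `μ`. -/
def PCA.IsLimit [TopologicalSpace S] [MeasurableSpace S] [MeasurableSpace A] (P : PCA d S A)
    (p : Measure A) (μ : Measure (Zd d → S)) : Prop :=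
  ∀ (ξ : Zd d → S) (g : BoundedContinuousFunction (Zd d → S) ℝ),
    Tendsto (fun n : ℕ => ∫ W, g (P.evol W ξ 0 n) ∂(noise d p)) atTop (𝓝 (∫ ω, g ω ∂μ))

/-- `τ_v`: the least `i ≥ 0` such that `ω^{ξ,-i}_{v,0}` is the same for all `ξ`
(`⊤` if there is none). -/
noncomputable def PCA.tau (P : PCA d S A) (W : Zd d × ℤ → A) (v : Zd d) : ℕ∞ :=
  ⨅ (i : ℕ) (_ : ∀ ξ ξ' : Zd d → S, P.evol W ξ (-i) i v = P.evol W ξ' (-i) i v), (i : ℕ∞)

/-- The exponential tail bound `ℙ(τ_v > n) ≤ C e^{-cn}` of exponential uniform ergodicity. -/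
def PCA.ExpTail [MeasurableSpace A] (P : PCA d S A) (p : Measure A) : Prop :=
  ∃ C c : ℝ, 0 < c ∧ ∀ (v : Zd d) (n : ℕ),
    noise d p {W | (n : ℕ∞) < P.tau W v} ≤ ENNReal.ofReal (C * Real.exp (-(c * n)))

/-- The coding radius of `φ` at `x`: the least `r` such that `φ(x)_0` is determined by the
coordinates of `x` in the `ℓ¹`-ball of radius `r` (`⊤` if there is none). -/
noncomputable def codingRadius {B : Type} (φ : (Zd d → B) → (Zd d → S)) (x : Zd d → B) : ℕ∞ :=
  ⨅ (r : ℕ) (_ : ∀ x' : Zd d → B, (∀ v, nrm v ≤ r → x' v = x v) → φ x' 0 = φ x 0), (r : ℕ∞)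

/-- `μ` is a finitary factor of a finite-valued i.i.d. process, with a coding radius having
exponential tails. -/
def FvFfiidExp [MeasurableSpace S] (μ : Measure (Zd d → S)) : Prop :=
  ∃ (B : Type) (_ : Finite B) (_ : MeasurableSpace B) (_ : DiscreteMeasurableSpace B)
    (q : Measure B) (_ : IsProbabilityMeasure q) (φ : (Zd d → B) → (Zd d → S)),
    Measurable φ ∧
    (∀ (u : Zd d) (x : Zd d → B), φ (fun v => x (v + u)) = fun v => φ x (v + u)) ∧
    (Measure.infinitePi (fun _ : Zd d => q)).map φ = μ ∧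
    ∃ C c : ℝ, 0 < c ∧ ∀ r : ℕ,
      Measure.infinitePi (fun _ : Zd d => q) {x | (r : ℕ∞) < codingRadius φ x} ≤
        ENNReal.ofReal (C * Real.exp (-(c * r)))

end Pool.Agent.H96.PCAStmt
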