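import Pool.Agent.H96.PCA.Defs
import Pool.Agent.H96.PCA.Bev
import Pool.Agent.H64.PCA.Moment

/-!
Reduction of MP_fe4781_pr to the core theorem about random local maps.
-/

namespace Pool.Agent.H96.PCAStmt

open MeasureTheory Filter Topology Set
open scoped ENNReal
open H64.PCA (V ball mem_ball IsLocal stepH Bad ev cur p1 Pr)

variable {d : ℕ} {S A : Type}

/-- change of structure -/
def toCA (P : PCA d S A) : CA.PCA d S A := ⟨P.F, P.F', P.f⟩

theorem evol_eq (P : PCA d S A) (W : Zd d × ℤ → A) (ξ : Zd d → S) (i₀ : ℤ) (n : ℕ) :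
    P.evol W ξ i₀ n = (toCA P).evol W ξ i₀ n := by
  induction n with
  | zero => rfl
  | succ n ih =>
    funext v
    show P.f _ _ = P.f _ _
    rw [ih]
    rfl

/-- the field driving the backward evolution ending at time `n` -/
def bk (n : ℤ) (W : Zd d × ℤ → A) : Zd d × ℕ → A := fun p => W (p.1, n - 1 - p.2)

theorem evol_bk (P : PCA d S A) (W : Zd d × ℤ → A) (ξ : Zd d → S) (i₀ : ℤ) (n : ℕ) :
    P.evol W ξ i₀ n = (toCA P).bev (fun y t => bk (i₀ + n) W (y, t)) ξ n 0 := by
  rw [evol_eq, CA.PCA.evol_eq_bev _ _ _ _ _ 0]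
  congr 1
  funext y t
  unfold bk
  congr 2
  push_cast
  ring

/-! ### The `K`-step map -/

section step

variable (P : PCA d S A) (K : ℕ) [NeZero K]

/-- the `K`-step map at the origin -/
def hmap (w : V d → (Fin K → A)) (ξ : V d → S) : S :=
  (toCA P).bev (fun y m => w y (Fin.ofNat K m)) ξ K 0 0

theorem hmap_local {R : ℕ} (hR : (toCA P).RangeLE R) : IsLocal (hmap P K) (R * K) := by
  intro w w' ξ ξ' hw hξ
  have hb : ∀ y : Zd d, CA.Near (R * K) 0 y → y ∈ ball (0 : V d) (R * K) := by
    intro y hy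
    rw [mem_ball]
    intro i
    have := hy i
    rwa [abs_sub_comm] at this
  refine CA.PCA.bev_local hR K 0 0 (fun y m hy _ _ => ?_) (fun y hy => hξ y (hb y hy))
  rw [hw y (hb y hy)]

theorem stepH_hmap (w : V d → (Fin K → A)) (ξ : V d → S) (u : V d) :
    stepH (hmap P K) w ξ u =
      (toCA P).bev (fun y m => w y (Fin.ofNat K m)) ξ K 0 u := by
  have := CA.PCA.bev_translate (toCA P) (fun y m => w y (Fin.ofNat K m)) ξ u 0 K 0 0
  simp only [zero_add, add_zero] at this
  exact this

/-- the noise at depth `n` of a field of columns -/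
def colf (X : V d × ℕ → (Fin K → A)) : V d → ℕ → A := fun y n => X (y, n / K) (Fin.ofNat K n)

theorem ev_hmap (hK : 0 < K) {R : ℕ} (hR : (toCA P).RangeLE R) (X : V d × ℕ → (Fin K → A))
    (ξ : V d → S) (m : ℕ) : ∀ t : ℕ, ev (hmap P K) (cur X) t m ξ =
      (toCA P).bev (colf K X) ξ (m * K) (t * K) := by
  induction m with
  | zero =>
    intro t
    simp only [Nat.zero_mul]
    rfl
  | succ m ih =>
    intro t
    funext u
    have h1 : ev (hmap P K) (cur X) t (m + 1) ξ =
        stepH (hmap P K) (fun y => cur X y t) (ev (hmap P K) (cur X) (t + 1) m ξ) := rfl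
    rw [h1, stepH_hmap, ih (t + 1)]
    have h2 : (m + 1) * K = K + m * K := by ring
    have h3 : t * K + K = (t + 1) * K := by ring
    rw [h2, CA.PCA.bev_add, h3]
    have h4 := CA.PCA.bev_translate (toCA P) (colf K X)
      ((toCA P).bev (colf K X) ξ (m * K) ((t + 1) * K)) 0 (t * K) K 0 u
    simp only [zero_add, add_zero] at h4
    rw [← h4]
    refine CA.PCA.bev_local hR K 0 u (fun y s _ _ hs => ?_) (fun _ _ => rfl)
    rw [zero_add] at hs
    have e1 : (t * K + s) / K = t := by
      rw [mul_comm t K, Nat.mul_add_div hK, Nat.div_eq_of_lt hs, add_zero]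
    have e2 : Fin.ofNat K (t * K + s) = Fin.ofNat K s := by
      apply Fin.ext
      simp only [Fin.val_ofNat]
      rw [mul_comm t K, Nat.mul_add_mod]
    show X (y, t) (Fin.ofNat K s) = X (y, (t * K + s) / K) (Fin.ofNat K (t * K + s))
    rw [e1, e2]

end step

/-! ### Laws -/

section law

variable [Finite A] [MeasurableSpace A] [DiscreteMeasurableSpace A]
  (p : Measure A) [IsProbabilityMeasure p]

theorem law_bk (n : ℤ) : (noise d p).map (bk n) = Pr (V d × ℕ) p := by
  have hinj : Function.Injective (fun q : Zd d × ℕ => ((q.1, n - 1 - q.2) : Zd d × ℤ)) := by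
    rintro ⟨y, s⟩ ⟨y', s'⟩ h
    simp only [Prod.mk.injEq] at h
    refine Prod.ext h.1 ?_
    have := h.2
    simp only at this ⊢
    omega
  exact Measure.map_infinitePi_infinitePi_of_inj (P := fun _ : Zd d × ℤ => p) hinj

theorem measurable_bk (n : ℤ) : Measurable (bk (A := A) (d := d) n) := by
  unfold bk
  fun_prop

theorem law_colf (K : ℕ) [NeZero K] :
    (Pr (V d × ℕ) (Measure.pi (fun _ : Fin K => p))).map
      (fun X => fun q : V d × ℕ => colf K X q.1 q.2) = Pr (V d × ℕ) p := by
  have h1 : Pr (V d × ℕ) (Measure.pi (fun _ : Fin K => p)) =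
      (Measure.infinitePi (fun _ : (V d × ℕ) × Fin K => p)).map
        (MeasurableEquiv.curry (V d × ℕ) (Fin K) A) := by
    rw [Measure.infinitePi_map_curry (fun _ _ => p)]
    simp only [Measure.infinitePi_eq_pi]
  rw [h1, Measure.map_map]
  · have hinj : Function.Injective (fun q : V d × ℕ =>
        (((q.1, q.2 / K), Fin.ofNat K q.2) : (V d × ℕ) × Fin K)) := by
      rintro ⟨y, s⟩ ⟨y', s'⟩ h
      simp only [Prod.mk.injEq] at h
      obtain ⟨⟨h1, h2⟩, h3⟩ := h
      have h4 := congrArg Fin.val h3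
      simp only [Fin.val_ofNat] at h4
      refine Prod.ext h1 ?_
      show s = s'
      rw [← Nat.div_add_mod s K, ← Nat.div_add_mod s' K, h2, h4]
    exact Measure.map_infinitePi_infinitePi_of_inj
      (P := fun _ : (V d × ℕ) × Fin K => p) hinj
  · refine measurable_pi_lambda _ (fun q => ?_)
    have h2 : Measurable (fun X : V d × ℕ → (Fin K → A) => X (q.1, q.2 / K)) :=
      measurable_pi_apply _
    exact (measurable_pi_apply (Fin.ofNat K q.2)).comp h2
  · exact MeasurableEquiv.measurable _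

/-- the columns of the past -/
def pastcol (K : ℕ) (W : Zd d × ℤ → A) : V d → (Fin K → A) := fun y i => W (y, -1 - (i : ℕ))

theorem law_pastcol (K : ℕ) :
    (noise d p).map (pastcol K) = Pr (V d) (Measure.pi (fun _ : Fin K => p)) := by
  have h1 : Pr (V d) (Measure.pi (fun _ : Fin K => p)) =
      (Measure.infinitePi (fun _ : V d × Fin K => p)).map
        (MeasurableEquiv.curry (V d) (Fin K) A) := by
    rw [Measure.infinitePi_map_curry (fun _ _ => p)]
    simp only [Measure.infinitePi_eq_pi]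
  have hinj : Function.Injective (fun q : V d × Fin K =>
      ((q.1, -1 - ((q.2 : ℕ) : ℤ)) : Zd d × ℤ)) := by
    rintro ⟨y, s⟩ ⟨y', s'⟩ h
    simp only [Prod.mk.injEq] at h
    refine Prod.ext h.1 (Fin.ext ?_)
    have := h.2
    show (s : ℕ) = (s' : ℕ)
    omega
  have h2 := Measure.map_infinitePi_infinitePi_of_inj (P := fun _ : Zd d × ℤ => p) hinj
  have h2' : Measure.infinitePi (fun _ : V d × Fin K => p) = (noise d p).map
      (fun (ω : Zd d × ℤ → A) (i : V d × Fin K) => ω (i.1, -1 - ((i.2 : ℕ) : ℤ))) := h2.symm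
  rw [h1, h2', Measure.map_map]
  · rfl
  · exact MeasurableEquiv.measurable _
  · fun_prop

end law

/-! ### Measurability of the evolution -/

theorem measurable_bev [Finite A] [MeasurableSpace A] [DiscreteMeasurableSpace A]
    [Finite S] [MeasurableSpace S] [DiscreteMeasurableSpace S]
    (P : CA.PCA d S A) (ξ : Zd d → S) (n : ℕ) : ∀ m,
    Measurable (fun X : Zd d × ℕ → A => P.bev (fun y t => X (y, t)) ξ n m) := by
  induction n with
  | zero => intro m; exact measurable_const
  | succ n ih =>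
    intro m
    refine measurable_pi_lambda _ (fun v => ?_)
    have h1 : Measurable (fun X : Zd d × ℕ → A =>
        ((fun u : P.F => P.bev (fun y t => X (y, t)) ξ n (m + 1) (v + u),
          fun u : P.F' => X (v + u, m)) : (P.F → S) × (P.F' → A))) := by
      refine Measurable.prodMk ?_ ?_
      · refine measurable_pi_lambda _ (fun u => ?_)
        exact (measurable_pi_apply (v + u.1)).comp (ih (m + 1))
      · fun_prop
    have h2 : Measurable (fun q : (P.F → S) × (P.F' → A) => P.f q.1 q.2) := Measurable.of_discrete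
    exact h2.comp h1

/-! ### The limiting distribution on cylinders -/

section limit

variable [Finite A] [MeasurableSpace A] [DiscreteMeasurableSpace A]
  [Finite S] [TopologicalSpace S] [DiscreteTopology S] [MeasurableSpace S]
  [DiscreteMeasurableSpace S]
  (p : Measure A) [IsProbabilityMeasure p]

theorem measurable_evol (P : PCA d S A) (ξ : Zd d → S) (i₀ : ℤ) (n : ℕ) :
    Measurable (fun W : Zd d × ℤ → A => P.evol W ξ i₀ n) := by
  have h1 : (fun W : Zd d × ℤ → A => P.evol W ξ i₀ n) =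
      (fun X : Zd d × ℕ → A => (toCA P).bev (fun y t => X (y, t)) ξ n 0) ∘ bk (i₀ + n) := by
    funext W
    exact evol_bk P W ξ i₀ n
  rw [h1]
  exact (measurable_bev (toCA P) ξ n 0).comp (measurable_bk _)

/-- the indicator of a cylinder event as a bounded continuous function -/
noncomputable def cylInd (s : Finset (Zd d)) (T : Set (s → S)) :
    BoundedContinuousFunction (Zd d → S) ℝ :=
  BoundedContinuousFunction.ofNormedAddCommGroup
    (fun ω : Zd d → S => T.indicator (fun _ => (1 : ℝ)) (fun v : s => ω v))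
    (by
      have h1 : Continuous (fun ω : Zd d → S => (fun v : s => ω v)) := by fun_prop
      have h2 : Continuous (T.indicator (fun _ => (1 : ℝ)) : (s → S) → ℝ) :=
        continuous_of_discreteTopology
      exact h2.comp h1) 1
    (by
      intro ω
      by_cases h : (fun v : s => ω v) ∈ T
      · rw [Set.indicator_of_mem h]; simp
      · rw [Set.indicator_of_notMem h]; simp)

theorem cylInd_apply (s : Finset (Zd d)) (T : Set (s → S)) (ω : Zd d → S) :
    cylInd s T ω = ({ω : Zd d → S | (fun v : s => ω v) ∈ T}).indicator (fun _ => (1 : ℝ)) ω :=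
  rfl

theorem limit_cyl {P : PCA d S A} {μ : Measure (Zd d → S)} [IsProbabilityMeasure μ]
    (hlim : P.IsLimit p μ) (s : Finset (Zd d)) (T : Set (s → S)) (ξ : Zd d → S) :
    Tendsto (fun n : ℕ => noise d p {W | (fun v : s => P.evol W ξ 0 n v) ∈ T}) atTop
      (𝓝 (μ {ω | (fun v : s => ω v) ∈ T})) := by
  have hT : MeasurableSet {ω : Zd d → S | (fun v : s => ω v) ∈ T} := by
    have h1 : Measurable (fun ω : Zd d → S => (fun v : s => ω v)) := by fun_prop
    exact h1 (MeasurableSet.of_discrete (s := T))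
  have : IsProbabilityMeasure (noise d p) := by unfold noise; infer_instance
  have h := hlim ξ (cylInd s T)
  have e1 : ∀ n : ℕ, ∫ W, cylInd s T (P.evol W ξ 0 n) ∂(noise d p) =
      (noise d p {W | (fun v : s => P.evol W ξ 0 n v) ∈ T}).toReal := by
    intro n
    have hTn : MeasurableSet {W : Zd d × ℤ → A | (fun v : s => P.evol W ξ 0 n v) ∈ T} :=
      (measurable_evol P ξ 0 n) hT
    have : (fun W => cylInd s T (P.evol W ξ 0 n)) =
        ({W : Zd d × ℤ → A | (fun v : s => P.evol W ξ 0 n v) ∈ T}).indicator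
          (fun _ => (1 : ℝ)) := by
      funext W
      rw [cylInd_apply]
      rfl
    rw [this, integral_indicator_const _ hTn]
    simp [Measure.real]
  have e2 : ∫ ω, cylInd s T ω ∂μ = (μ {ω | (fun v : s => ω v) ∈ T}).toReal := by
    have : (fun ω => cylInd s T ω) =
        ({ω : Zd d → S | (fun v : s => ω v) ∈ T}).indicator (fun _ => (1 : ℝ)) := by
      funext ω
      rw [cylInd_apply]
    rw [this, integral_indicator_const _ hT]
    simp [Measure.real]
  simp only [e1, e2] at h
  rw [← ENNReal.tendsto_toReal_iff (fun n => measure_ne_top _ _) (measure_ne_top _ _)]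
  exact h

end limit

/-! ### The reduction -/

section main

variable [Finite A] [MeasurableSpace A] [DiscreteMeasurableSpace A]
  [Finite S] [MeasurableSpace S] [DiscreteMeasurableSpace S]
  (p : Measure A) [IsProbabilityMeasure p]

theorem coal_of_le (P : PCA d S A) (W : Zd d × ℤ → A) (v : Zd d) {i K : ℕ} (hi : i ≤ K)
    (h : ∀ ξ ξ' : Zd d → S, P.evol W ξ (-i) i v = P.evol W ξ' (-i) i v) (ξ ξ' : Zd d → S) :
    P.evol W ξ (-K) K v = P.evol W ξ' (-K) K v := by
  have key : ∀ ζ : Zd d → S, ∀ i : ℕ, P.evol W ζ (-i) i =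
      (toCA P).bev (fun y t => bk 0 W (y, t)) ζ i 0 := by
    intro ζ i
    rw [evol_bk]
    simp
  have hK : K = i + (K - i) := by omega
  rw [key, key]
  rw [hK, CA.PCA.bev_add, CA.PCA.bev_add, ← key, ← key]
  exact h _ _

theorem tau_gt_of_not_coal (P : PCA d S A) (W : Zd d × ℤ → A) (v : Zd d) (K : ℕ)
    (h : ¬ ∀ ξ ξ' : Zd d → S, P.evol W ξ (-K) K v = P.evol W ξ' (-K) K v) :
    (K : ℕ∞) < P.tau W v := by
  have h1 : ((K + 1 : ℕ) : ℕ∞) ≤ P.tau W v := by
    unfold PCA.tau
    refine le_iInf (fun i => le_iInf (fun hi => ?_))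
    have : K < i := by
      by_contra hcon
      exact h (coal_of_le P W v (by omega) hi)
    exact_mod_cast this
  refine lt_of_lt_of_le ?_ h1
  exact_mod_cast Nat.lt_succ_self K

theorem p1_le (P : PCA d S A) (K : ℕ) [NeZero K] {R : ℕ} (hR : (toCA P).RangeLE R) :
    p1 (hmap P K) (Measure.pi (fun _ : Fin K => p)) ≤
      noise d p {W | (K : ℕ∞) < P.tau W 0} := by
  unfold p1
  rw [← law_pastcol (d := d) p K, Measure.map_apply]
  · refine measure_mono ?_
    intro W hW
    obtain ⟨ξ, ξ', hne⟩ := hW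
    refine tau_gt_of_not_coal P W 0 K (fun hcon => hne ?_)
    rw [stepH_hmap, stepH_hmap]
    have key : ∀ ζ : Zd d → S, (toCA P).bev
        (fun y m => pastcol K W y (Fin.ofNat K m)) ζ K 0 0 = P.evol W ζ (-K) K 0 := by
      intro ζ
      rw [evol_bk]
      refine CA.PCA.bev_local hR K 0 0 (fun y m _ _ hm => ?_) (fun _ _ => rfl)
      rw [zero_add] at hm
      unfold pastcol bk
      have h1 : ((Fin.ofNat K m : Fin K) : ℕ) = m := by
        simp only [Fin.val_ofNat]
        exact Nat.mod_eq_of_lt hm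
      rw [h1]
      congr 2
      ring
    rw [key, key]
    exact hcon ξ ξ'
  · unfold pastcol
    refine measurable_pi_lambda _ (fun y => measurable_pi_lambda _ (fun i => ?_))
    exact measurable_pi_apply _
  · exact H64.PCA.measurableSet_of_dependsOn (H64.PCA.bad_dependsOn (hmap_local P K hR) 0)

/-- The statement of the core theorem. -/
def Core (d : ℕ) : Prop :=
  ∀ {α S : Type} [Fintype α] [MeasurableSpace α] [DiscreteMeasurableSpace α]
    [Finite S] [Nonempty S] [MeasurableSpace S] [DiscreteMeasurableSpace S]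
    (ν : Measure α) [IsProbabilityMeasure ν] (h : (V d → α) → (V d → S) → S)
    (a : ℕ) (_ : 1 ≤ a) (_ : IsLocal h a)
    (_ : ((128 * (44 * a) ^ (3 * d) : ℕ) : ℝ≥0∞) * p1 h ν ≤ 1)
    (μ : Measure (V d → S)) [IsProbabilityMeasure μ]
    (_ : ∀ (s : Finset (V d)) (T : Set (s → S)), ∃ ξ : V d → S,
      Tendsto (fun m => (Pr (V d × ℕ) ν) {X | (fun v : s => ev h (cur X) 0 m ξ v) ∈ T}) atTop
        (𝓝 (μ {x | (fun v : s => x v) ∈ T}))),
    ∃ (B : Type) (_ : Finite B) (_ : MeasurableSpace B) (_ : DiscreteMeasurableSpace B)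
      (q : Measure B) (_ : IsProbabilityMeasure q) (φ : (V d → B) → (V d → S)), Measurable φ ∧
      (∀ (u : V d) (x : V d → B), φ (fun v => x (v + u)) = fun v => φ x (v + u)) ∧
      (Measure.infinitePi (fun _ : V d => q)).map φ = μ ∧
      ∃ (C ρ : ℝ≥0∞), C ≠ ⊤ ∧ ρ < 1 ∧ ∀ r : ℕ,
        (Measure.infinitePi (fun _ : V d => q))
          {x | ∃ x', (∀ v ∈ ball 0 r, x v = x' v) ∧ φ x 0 ≠ φ x' 0} ≤ C * ρ ^ r

theorem exists_scale {d : ℕ} (R : ℕ) {C c : ℝ} (hc : 0 < c) :
    ∃ K : ℕ, 0 < K ∧ (128 * (44 * (R * K : ℕ)) ^ (3 * d) : ℝ) * (C * Real.exp (-(c * K))) ≤ 1 := by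
  have h1 := Real.tendsto_pow_mul_exp_neg_atTop_nhds_zero (3 * d)
  have h2 : Tendsto (fun K : ℕ => c * (K : ℝ)) atTop atTop :=
    Tendsto.const_mul_atTop hc tendsto_natCast_atTop_atTop
  have h3 := h1.comp h2
  have h4 := h3.const_mul (128 * (44 * R) ^ (3 * d) / c ^ (3 * d) * C)
  rw [mul_zero] at h4
  have h5 := (h4.eventually (ge_mem_nhds (zero_lt_one))).and (eventually_gt_atTop 0)
  obtain ⟨K, hK, hK0⟩ := h5.exists
  refine ⟨K, hK0, ?_⟩
  refine le_trans (le_of_eq ?_) hK
  have hc' : c ^ (3 * d) ≠ 0 := (pow_pos hc _).ne'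
  simp only [Function.comp_apply]
  push_cast
  rw [mul_pow c (K : ℝ)]
  field_simp
  ring

theorem tail_convert {d : ℕ} (hd : 1 ≤ d) {C ρ : ℝ≥0∞} (hC : C ≠ ⊤) (hρ : ρ < 1) :
    ∃ C' c' : ℝ, 0 < c' ∧ ∀ r : ℕ, C * ρ ^ (r / d) ≤ ENNReal.ofReal (C' * Real.exp (-(c' * r))) := by
  set σ : ℝ := max ρ.toReal (1 / 2) with hσ
  have hρt : ρ ≠ ⊤ := (lt_trans hρ ENNReal.one_lt_top).ne
  have hρ1 : ρ.toReal < 1 := by
    rw [← ENNReal.toReal_one]
    exact (ENNReal.toReal_lt_toReal hρt ENNReal.one_ne_top).2 hρ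
  have hσ0 : 0 < σ := lt_of_lt_of_le (by norm_num) (le_max_right _ _)
  have hσ1 : σ < 1 := max_lt hρ1 (by norm_num)
  have hd' : (0 : ℝ) < d := by exact_mod_cast hd
  refine ⟨C.toReal / σ, -Real.log σ / d, div_pos (neg_pos.2 (Real.log_neg hσ0 hσ1)) hd', ?_⟩
  intro r
  have e1 : C * ρ ^ (r / d) = ENNReal.ofReal (C.toReal * ρ.toReal ^ (r / d)) := by
    rw [ENNReal.ofReal_mul ENNReal.toReal_nonneg, ENNReal.ofReal_pow ENNReal.toReal_nonneg,
      ENNReal.ofReal_toReal hC, ENNReal.ofReal_toReal hρt]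
  rw [e1]
  refine ENNReal.ofReal_le_ofReal ?_
  have h1 : ρ.toReal ^ (r / d) ≤ σ ^ (r / d) :=
    pow_le_pow_left₀ ENNReal.toReal_nonneg (le_max_left _ _) _
  have h2 : σ ^ (r / d) ≤ σ⁻¹ * Real.exp (-(-Real.log σ / d * r)) := by
    have h3 : (σ ^ (r / d) : ℝ) = Real.exp (Real.log σ * (r / d : ℕ)) := by
      rw [mul_comm, Real.exp_nat_mul, Real.exp_log hσ0]
    have h4 : σ⁻¹ = Real.exp (-Real.log σ) := by
      rw [Real.exp_neg, Real.exp_log hσ0]
    rw [h3, h4, ← Real.exp_add]
    refine Real.exp_le_exp.2 ?_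
    have h5 : (r : ℝ) / d - 1 ≤ ((r / d : ℕ) : ℝ) := by
      have h6 := Nat.lt_succ_floor ((r : ℝ) / d)
      rw [Nat.floor_div_natCast, Nat.floor_natCast] at h6
      push_cast at h6
      linarith
    have h7 : Real.log σ < 0 := Real.log_neg hσ0 hσ1
    have h8 : -Real.log σ + -(-Real.log σ / d * r) = Real.log σ * ((r : ℝ) / d - 1) := by
      field_simp
      ring
    rw [h8]
    exact mul_le_mul_of_nonpos_left h5 h7.le
  calc C.toReal * ρ.toReal ^ (r / d) ≤ C.toReal * (σ⁻¹ * Real.exp (-(-Real.log σ / d * r))) :=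
        mul_le_mul_of_nonneg_left (h1.trans h2) ENNReal.toReal_nonneg
    _ = _ := by rw [div_eq_mul_inv]; ring

theorem reduction [TopologicalSpace S] [DiscreteTopology S] [Nonempty S] (hd : 1 ≤ d)
    (hcore : Core d) (P : PCA d S A) (μ : Measure (Zd d → S)) [IsProbabilityMeasure μ]
    (hlim : P.IsLimit p μ) (hexp : P.ExpTail p) : FvFfiidExp μ := by
  obtain ⟨C, c, hc, hexp⟩ := hexp
  obtain ⟨R₀, hR₀⟩ := (toCA P).exists_range
  set R := R₀ + 1 with hRdef
  have hR : (toCA P).RangeLE R :=
    ⟨fun u hu => (hR₀.1 u hu).mono (by omega), fun u hu => (hR₀.2 u hu).mono (by omega)⟩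
  obtain ⟨K, hK, hscale⟩ := exists_scale (d := d) R (C := C) hc
  have : NeZero K := ⟨hK.ne'⟩
  have : Fintype (Fin K → A) := Fintype.ofFinite _
  have hp1 : p1 (hmap P K) (Measure.pi (fun _ : Fin K => p)) ≤
      ENNReal.ofReal (C * Real.exp (-(c * K))) := (p1_le p P K hR).trans (hexp 0 K)
  have hcond : ((128 * (44 * (R * K)) ^ (3 * d) : ℕ) : ℝ≥0∞) *
      p1 (hmap P K) (Measure.pi (fun _ : Fin K => p)) ≤ 1 := by
    refine (mul_le_mul' le_rfl hp1).trans ?_
    have e1 : ((128 * (44 * (R * K)) ^ (3 * d) : ℕ) : ℝ≥0∞) =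
        ENNReal.ofReal ((128 * (44 * (R * K : ℕ)) ^ (3 * d) : ℝ)) := by
      rw [← ENNReal.ofReal_natCast]
      congr 1
      push_cast
      ring
    rw [e1, ← ENNReal.ofReal_mul (by positivity), ← ENNReal.ofReal_one]
    exact ENNReal.ofReal_le_ofReal hscale
  obtain ⟨B, hB1, hB2, hB3, q, hq, φ, hφ1, hφ2, hφ3, C', ρ, hC', hρ, htail⟩ :=
    hcore (Measure.pi (fun _ : Fin K => p)) (hmap P K) (R * K)
      (Nat.mul_pos (by omega) hK) (hmap_local P K hR) hcond μ (by
        intro s T
        obtain ⟨s₀⟩ := (inferInstance : Nonempty S)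
        refine ⟨fun _ => s₀, ?_⟩
        have h1 := limit_cyl p hlim s T (fun _ => s₀)
        have h2 : Tendsto (fun m : ℕ => m * K) atTop atTop :=
          tendsto_id.atTop_mul_const' hK
        have h3 := h1.comp h2
        refine h3.congr (fun m => ?_)
        -- both sides are the law of the backward evolution
        have hmeasS : MeasurableSet {X : Zd d × ℕ → A | (fun v : s =>
            (toCA P).bev (fun y t => X (y, t)) (fun _ => s₀) (m * K) 0 v) ∈ T} := by
          have h4 := measurable_bev (toCA P) (fun _ => s₀) (m * K) 0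
          have h5 : Measurable (fun ω : Zd d → S => (fun v : s => ω v)) := by fun_prop
          exact (h5.comp h4) (MeasurableSet.of_discrete (s := T))
        have e1 : (noise d p) {W | (fun v : s => P.evol W (fun _ => s₀) 0 (m * K) v) ∈ T} =
            Pr (V d × ℕ) p {X | (fun v : s =>
              (toCA P).bev (fun y t => X (y, t)) (fun _ => s₀) (m * K) 0 v) ∈ T} := by
          rw [← law_bk (d := d) p (0 + ((m * K : ℕ) : ℤ)), Measure.map_apply (measurable_bk _) hmeasS]
          congr 1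
          ext W
          simp only [mem_preimage, mem_ofPred_eq]
          rw [evol_bk]
        have e2 : (Pr (V d × ℕ) (Measure.pi (fun _ : Fin K => p))) {X | (fun v : s =>
              ev (hmap P K) (cur X) 0 m (fun _ => s₀) v) ∈ T} =
            Pr (V d × ℕ) p {X | (fun v : s =>
              (toCA P).bev (fun y t => X (y, t)) (fun _ => s₀) (m * K) 0 v) ∈ T} := by
          rw [← law_colf (d := d) p K, Measure.map_apply ?_ hmeasS]
          · congr 1
            ext X
            simp only [mem_preimage, mem_ofPred_eq]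
            rw [ev_hmap P K hK hR, zero_mul]
          · refine measurable_pi_lambda _ (fun q => ?_)
            have h2 : Measurable (fun X : V d × ℕ → (Fin K → A) => X (q.1, q.2 / K)) :=
              measurable_pi_apply _
            exact (measurable_pi_apply (Fin.ofNat K q.2)).comp h2
        simp only [Function.comp_apply]
        rw [e1, e2])
  obtain ⟨C'', c'', hc'', hfin⟩ := tail_convert hd hC' hρ
  refine ⟨B, hB1, hB2, hB3, q, hq, φ, hφ1, hφ2, hφ3, C'', c'', hc'', fun r => ?_⟩
  refine le_trans ?_ (hfin r)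
  refine le_trans (measure_mono ?_) (htail (r / d))
  intro x hx
  by_contra hcon
  have hcon' : ∀ x', (∀ v ∈ ball 0 (r / d), x v = x' v) → φ x 0 = φ x' 0 := by
    intro x' hx'
    by_contra hne
    exact hcon ⟨x', hx', hne⟩
  have hle : codingRadius φ x ≤ r := by
    unfold codingRadius
    refine iInf_le_of_le r (iInf_le_of_le ?_ le_rfl)
    intro x' hx'
    refine (hcon' x' (fun v hv => (hx' v ?_).symm)).symm
    rw [mem_ball] at hv
    unfold nrm
    calc ∑ i, (v i).natAbs ≤ ∑ _i : Fin d, (r / d) := by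
          refine Finset.sum_le_sum (fun i _ => ?_)
          have := hv i
          simp only [Pi.zero_apply, sub_zero] at this
          zify
          exact_mod_cast this
      _ = d * (r / d) := by simp
      _ ≤ r := Nat.mul_div_le r d
  exact absurd hx (not_lt.2 hle)

end main

end Pool.Agent.H96.PCAStmt
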